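import Pool.Agent.Lib.MP_7a5dd1_an.Main
import Pool.Agent.Lib.MP_7a5dd1_an.Transfer
import Pool.Agent.Lib.MP_7a5dd1_an.C0

set_option autoImplicit false

namespace Pool.Agent.Results.MP_7a5dd1_an.Primary

open Metric

/-- The disc algebra `A`: the continuous functions on the closed unit disc that are analytic in
the open unit disc, as a subspace of the Banach space of all continuous functions on the closed
disc (sup norm). -/
noncomputable def discAlgebra : Submodule ℂ C(closedBall (0 : ℂ) 1, ℂ) where
  carrier := {f | ∃ g : ℂ → ℂ, DifferentiableOn ℂ g (ball (0 : ℂ) 1) ∧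
    ∀ z : closedBall (0 : ℂ) 1, (z : ℂ) ∈ ball (0 : ℂ) 1 → g z = f z}
  add_mem' := by
    rintro f f' ⟨g, hg, h⟩ ⟨g', hg', h'⟩
    refine ⟨fun z => g z + g' z, hg.add hg', fun z hz => ?_⟩
    change g z + g' z = f z + f' z
    rw [h z hz, h' z hz]
  zero_mem' := ⟨fun _ => 0, differentiableOn_const _, fun _ _ => rfl⟩
  smul_mem' := by
    rintro c f ⟨g, hg, h⟩
    refine ⟨fun z => c * g z, hg.const_mul c, fun z hz => ?_⟩
    change c * g z = c * f z
    rw [h z hz]

/-- A complex normed space `X` is primary: it is infinite dimensional, and whenever `X` is the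
direct sum of two closed subspaces `Y`, `Z`, one of them is isomorphic (linearly homeomorphic)
to `X`. -/
def IsPrimary (X : Type) [NormedAddCommGroup X] [NormedSpace ℂ X] : Prop :=
  ¬ FiniteDimensional ℂ X ∧ ∀ Y Z : Submodule ℂ X, IsClosed (Y : Set X) → IsClosed (Z : Set X) →
    IsCompl Y Z → Nonempty (Y ≃L[ℂ] X) ∨ Nonempty (Z ≃L[ℂ] X)

/-- The monomials show that the disc algebra is infinite dimensional. -/
theorem not_finiteDimensional : ¬ FiniteDimensional ℂ discAlgebra := by
  intro hfin
  let L : Polynomial ℂ →ₗ[ℂ] discAlgebra :=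
    { toFun := fun p => ⟨⟨fun z => p.eval (z : ℂ), by fun_prop⟩,
        ⟨fun z => p.eval z, p.differentiable.differentiableOn, fun z _ => rfl⟩⟩
      map_add' := fun p q => by
        apply Subtype.ext
        ext z
        exact Polynomial.eval_add
      map_smul' := fun c p => by
        apply Subtype.ext
        ext z
        exact Polynomial.eval_smul c p _ }
  have hinj : Function.Injective L := by
    intro p q hpq
    apply Polynomial.eq_of_infinite_eval_eq
    refine Set.Infinite.mono ?_ (s := ball (0 : ℂ) 1) ?_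
    · intro z hz
      have h1 := congrArg (fun f : discAlgebra =>
        (f : C(closedBall (0 : ℂ) 1, ℂ)) ⟨z, ball_subset_closedBall hz⟩) hpq
      exact h1
    · exact infinite_of_mem_nhds (0 : ℂ) (ball_mem_nhds _ one_pos)
  exact Polynomial.not_finite (R := ℂ) (Module.Finite.of_injective L hinj)

/-- The disc algebra seen in the space of bounded continuous functions. -/
noncomputable def discB : Submodule ℂ (BoundedContinuousFunction (closedBall (0 : ℂ) 1) ℂ) :=
  discAlgebra.map (ContinuousMap.linearIsometryBoundedOfCompact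
    (closedBall (0 : ℂ) 1) ℂ ℂ).toLinearEquiv.toLinearMap

theorem mem_discB (f : BoundedContinuousFunction (closedBall (0 : ℂ) 1) ℂ) :
    f ∈ discB ↔ ∃ g : ℂ → ℂ, DifferentiableOn ℂ g (ball (0 : ℂ) 1) ∧
      ∀ z : closedBall (0 : ℂ) 1, g (z : ℂ) = f z := by
  classical
  constructor
  · rintro ⟨f', ⟨g, hg, h⟩, rfl⟩
    refine ⟨fun z => if hz : z ∈ closedBall (0 : ℂ) 1 then f' ⟨z, hz⟩ else 0, ?_, ?_⟩
    · refine hg.congr fun z hz => ?_
      have hz' : z ∈ closedBall (0 : ℂ) 1 := ball_subset_closedBall hz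
      rw [dif_pos hz']
      exact (h ⟨z, hz'⟩ hz).symm
    · intro z
      change (if hz : (z : ℂ) ∈ closedBall (0 : ℂ) 1 then f' ⟨z, hz⟩ else 0) = f' z
      rw [dif_pos z.2]
  · rintro ⟨g, hg, h⟩
    refine ⟨f.toContinuousMap, ⟨g, hg, fun z _ => h z⟩, ?_⟩
    ext z
    rfl

theorem exists_equiv : Nonempty (discAlgebra ≃L[ℂ] Pool.Agent.MP_7a5dd1_an.DA) := by
  obtain ⟨e⟩ := Pool.Agent.MP_7a5dd1_an.transfer discB mem_discB
  have e1 : discAlgebra ≃L[ℂ] discB :=
    (ContinuousMap.linearIsometryBoundedOfCompact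
      (closedBall (0 : ℂ) 1) ℂ ℂ).toContinuousLinearEquiv.submoduleMap discAlgebra
  exact ⟨e1.trans e⟩

/-- The disc algebra is primary. -/
theorem result : IsPrimary discAlgebra := by
  refine ⟨not_finiteDimensional, fun Y Z hY hZ hYZ => ?_⟩
  obtain ⟨e⟩ := exists_equiv
  have : CompleteSpace Pool.Agent.MP_7a5dd1_an.DA :=
    Pool.Agent.MP_7a5dd1_an.isClosed_DA.completeSpace_coe
  have : CompleteSpace discAlgebra :=
    (completeSpace_congr (e := e.toEquiv) e.isUniformEmbedding).2 inferInstance
  have hcompl : Submodule.IsTopCompl Y Z := Submodule.IsCompl.isTopCompl_of_isClosed hYZ hY hZ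
  let P : discAlgebra →L[ℂ] discAlgebra := Y.subtypeL.comp (Y.projectionOntoL Z hcompl)
  have hPa : ∀ x, P x = (Y.projectionOntoL Z hcompl x : discAlgebra) := fun x => rfl
  have hPP : P.comp P = P := by
    refine ContinuousLinearMap.ext fun x => ?_
    change P (P x) = P x
    rw [hPa, hPa x, Submodule.projectionOntoL_apply_left]
  have hr : LinearMap.range P.toLinearMap = Y := by
    ext x
    constructor
    · rintro ⟨y, rfl⟩
      exact (Y.projectionOntoL Z hcompl y).2
    · intro hx
      refine ⟨x, ?_⟩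
      change P x = x
      rw [hPa]
      exact congrArg Subtype.val (Submodule.projectionOntoL_apply_left hcompl ⟨x, hx⟩)
  have hk : LinearMap.ker P.toLinearMap = Z := by
    ext x
    rw [LinearMap.mem_ker]
    change P x = 0 ↔ x ∈ Z
    rw [hPa, ← Submodule.projectionOntoL_apply_eq_zero_iff hcompl]
    exact ⟨fun h => Subtype.ext h, fun h => congrArg Subtype.val h⟩
  have hmain := Pool.Agent.MP_7a5dd1_an.primary_of_equiv e
    (Pool.Agent.MP_7a5dd1_an.main_of_c0 Pool.Agent.MP_7a5dd1_an.c0_complemented) P hPP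
  rw [hr, hk] at hmain
  exact hmain

end Pool.Agent.Results.MP_7a5dd1_an.Primary
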